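import Pool.Agent.H12Z.GurMain

set_option autoImplicit false

namespace Pool.Agent.Results.MP_c7f7e8_an.NotGdelta

open Pool.Agent.H12Z.Gur

/-- **Q1.** The isomorphism class of the Gurarii space is not a countable intersection of open
sets, neither in `Pinf` nor in `B`. -/
theorem result (G : Type) [NormedAddCommGroup G] [NormedSpace ℝ G] (hG : IsGurarii G) :
    ¬ IsGδ (isoClass Pinf G) ∧ ¬ IsGδ (isoClass B G) :=
  ⟨not_gdelta_Pinf hG, not_gdelta_B hG⟩

end Pool.Agent.Results.MP_c7f7e8_an.NotGdelta
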